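import Pool.Agent.Y121.NK.Quot

/-!
# Idempotents of finite-dimensional graded algebras

An idempotent of a finite-dimensional graded algebra over `ℚ` is isomorphic to a homogeneous
idempotent (of degree zero).
-/

namespace Pool.Agent.Y121.FD

open Pool.Agent.TH829.Kim Pool.Agent.Y121.NK

variable {A : Type*} [Ring A] [Algebra ℚ A]

/-- The trace of the left multiplication. -/
noncomputable def regTr (A : Type*) [Ring A] [Algebra ℚ A] : A →ₗ[ℚ] ℚ :=
  LinearMap.trace ℚ A ∘ₗ LinearMap.mul ℚ A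

lemma regTr_apply (x : A) : regTr A x = LinearMap.trace ℚ A (LinearMap.mulLeft ℚ x) := rfl

lemma regTr_comm [Module.Finite ℚ A] (a b : A) : regTr A (a * b) = regTr A (b * a) := by
  rw [regTr_apply, regTr_apply, LinearMap.mulLeft_mul, LinearMap.mulLeft_mul]
  exact LinearMap.trace_mul_comm ℚ (LinearMap.mulLeft ℚ a) (LinearMap.mulLeft ℚ b)

lemma isNilpotent_of_mulLeft {x : A} (h : IsNilpotent (LinearMap.mulLeft ℚ x)) :
    IsNilpotent x := by
  obtain ⟨n, hn⟩ := h
  refine ⟨n, ?_⟩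
  rw [LinearMap.pow_mulLeft] at hn
  have := LinearMap.congr_fun hn 1
  rwa [LinearMap.mulLeft_apply, mul_one, LinearMap.zero_apply] at this

lemma regTr_of_nilpotent [Module.Finite ℚ A] {x : A} (h : IsNilpotent x) : regTr A x = 0 := by
  rw [regTr_apply]
  have h1 : IsNilpotent (LinearMap.mulLeft ℚ x) := by
    obtain ⟨n, hn⟩ := h
    exact ⟨n, by rw [LinearMap.pow_mulLeft, hn, LinearMap.mulLeft_zero_eq_zero]⟩
  exact (LinearMap.isNilpotent_trace_of_isNilpotent h1).eq_zero

lemma inRad_isNilpotent [Module.Finite ℚ A] {x : A} (h : InRad (regTr A) x) : IsNilpotent x := by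
  apply isNilpotent_of_mulLeft
  refine ⟨_, pow_finrank_eq_zero (LinearMap.mulLeft ℚ x) fun r => ?_⟩
  rw [LinearMap.pow_mulLeft, pow_succ']
  exact h (x ^ r)

lemma good [Module.Finite ℚ A] (z : A) : Good (regTr A) z := by
  intro x hx
  let S : Submodule ℚ A :=
    { carrier := {a | InRad (regTr A) a}
      zero_mem' := fun γ => by rw [zero_mul, map_zero]
      add_mem' := fun {a b} h1 h2 => InRad.add h1 h2
      smul_mem' := fun q a h1 γ => by rw [smul_mul_assoc, map_smul, h1, smul_zero] }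
  have h1 : InNil x := by
    refine ⟨S, ?_, ?_, ?_, hx⟩
    · intro a s hs
      exact InRad.mul_left regTr_comm hs a
    · intro a s hs
      exact InRad.mul_right hs a
    · intro s hs
      exact inRad_isNilpotent hs
  exact h1.mul_right z

variable (G : BGr A)

lemma pr_pow {j : ℤ} {y : A} (hy : G.pr j y = y) (n : ℕ) : G.pr (n * j) (y ^ n) = y ^ n := by
  induction n with
  | zero => rw [Nat.cast_zero, zero_mul, pow_zero, G.pr_one]
  | succ n ih =>
    have h1 := G.pr_mul_left j (n * j) y (y ^ n) hy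
    rw [ih] at h1
    rw [pow_succ']
    conv_rhs => rw [← h1]
    congr 2
    push_cast
    ring

lemma isNilpotent_of_ne {j : ℤ} (hj : j ≠ 0) (x : A) : IsNilpotent (G.pr j x) := by
  refine ⟨G.d + 1, ?_⟩
  rw [← pr_pow G (G.pr_self j x) (G.d + 1)]
  apply G.pr_out
  rw [Finset.mem_Icc]
  rintro ⟨h1, h2⟩
  rcases lt_or_gt_of_ne hj with h | h
  · push_cast at h1
    nlinarith
  · push_cast at h2
    nlinarith

/-- Idempotents of finite-dimensional graded algebras are isomorphic to homogeneous ones. -/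
theorem exists_homogeneous_fd [Module.Finite ℚ A] {e : A} (he : e * e = e) :
    ∃ p u v : A, G.pr 0 p = p ∧ p * p = p ∧ u * v = e ∧ v * u = p := by
  obtain ⟨p, u, v, h1, h2, h3, h4, -⟩ := G.exists_homogeneous_iso (tr := regTr A)
    (fun j x hj => regTr_of_nilpotent (isNilpotent_of_ne G hj x)) regTr_comm
    (by
      let b := Module.finBasis ℚ A
      refine ⟨_, b.equivFun.toLinearMap, fun x hx γ => ?_⟩
      have : x = 0 := b.equivFun.injective (by rw [map_zero]; exact hx)
      rw [this, zero_mul, map_zero]) he (good e)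
  exact ⟨p, u, v, h1, h2, h3, h4⟩

/-- The same in the quotient by a homogeneous ideal of finite codimension. -/
theorem exists_homogeneous_fdq (I : Ideal A) [I.IsTwoSided] (hI : ∀ x ∈ I, ∀ j, G.pr j x ∈ I)
    [Module.Finite ℚ (A ⧸ I)] {e : A} (he : e * e - e ∈ I) :
    ∃ p u v : A, G.pr 0 p = p ∧ p * p - p ∈ I ∧ u * v - e ∈ I ∧ v * u - p ∈ I := by
  have he' : Ideal.Quotient.mk I e * Ideal.Quotient.mk I e = Ideal.Quotient.mk I e := by
    rw [← map_mul]
    exact (Ideal.Quotient.mk_eq_mk_iff_sub_mem _ _).2 he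
  obtain ⟨p, u, v, h1, h2, h3, h4⟩ := exists_homogeneous_fd (G.quot I hI) he'
  obtain ⟨p, rfl⟩ := Ideal.Quotient.mk_surjective p
  obtain ⟨u, rfl⟩ := Ideal.Quotient.mk_surjective u
  obtain ⟨v, rfl⟩ := Ideal.Quotient.mk_surjective v
  rw [BGr.quot_pr] at h1
  refine ⟨G.pr 0 p, u, v, G.pr_self 0 p, ?_, ?_, ?_⟩
  · rw [← Ideal.Quotient.mk_eq_mk_iff_sub_mem, map_mul, h1, h2]
  · rw [← Ideal.Quotient.mk_eq_mk_iff_sub_mem, map_mul, h3]
  · rw [← Ideal.Quotient.mk_eq_mk_iff_sub_mem, map_mul, h4, h1]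

end Pool.Agent.Y121.FD
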