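import Pool.Agent.Y121.NK.HomDefs

/-!
# The noncommutative Hodge conjecture for direct summands: definitions

`H` is the cohomology with rational coefficients (Betti cohomology). The Chern character (times the
square root of the Todd class) identifies `K_0(X)_ℚ` with `CH^*(X)_ℚ`, `K_0^top(X)_ℚ` with the even
cohomology of `X`, and the action of `K_0(X × X)_ℚ` with the action of `CH^*(X × X)_ℚ`, the
correspondences of all degrees.
-/

open CategoryTheory AlgebraicGeometry TensorProduct

universe u v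

namespace Pool.Agent.Y121.FD

open Pool.Agent.H914 Pool.Agent.H914.VarClass Pool.Agent.H914.VarClass.Obj Pool.Agent.W492.BB
  Pool.Agent.W550.Corr Pool.Agent.TH133 Pool.Agent.Y121.NK

/-- The complexification of a linear map of rational vector spaces. -/
noncomputable def cxMap {V W : Type v} [AddCommGroup V] [Module ℚ V] [AddCommGroup W] [Module ℚ W]
    (f : V →ₗ[ℚ] W) (x : ℂ ⊗[ℚ] V) : ℂ ⊗[ℚ] W := f.baseChange ℂ x

variable {k : Type u} [Field k] {𝒱 : VarClass k} {C : TheoryData.{u, v, 0} 𝒱 ℚ}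

section complex

variable (H : WeilTheoryData.{u, v, 0} C ℚ) {X Y : 𝒱.Obj}

/-- The complex cohomology `H(X, ℂ) = ℂ ⊗ H(X)`. -/
def HC (X : 𝒱.Obj) : Type v := ℂ ⊗[ℚ] H.A X

/-- The element `1 ⊗ a` of `ℂ ⊗ H(X)`. -/
noncomputable def ofRat (a : H.A X) : HC H X := (1 : ℂ) ⊗ₜ[ℚ] a

/-- The product of complex cohomology classes. -/
noncomputable def mulC (a b : HC H X) : HC H X :=
  HMul.hMul (α := ℂ ⊗[ℚ] H.A X) (β := ℂ ⊗[ℚ] H.A X) a b

/-- The pull-back of complex cohomology classes. -/
noncomputable def pullC (f : X ⟶ Y) (b : HC H Y) : HC H X := cxMap (H.pull f).toLinearMap b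

/-- The push-forward of complex cohomology classes. -/
noncomputable def pushC (f : X ⟶ Y) (a : HC H X) : HC H Y := cxMap (H.push f) a

/-- A notion of classes of type `(p, q)` in the complex cohomology: `T X p q a` means that the
class `a` in `H(X, ℂ)` lies in `H^{p,q}(X)`. -/
abbrev HodgeTypes := ∀ X : 𝒱.Obj, ℤ → ℤ → HC H X → Prop

end complex

variable {H : WeilTheoryData.{u, v, 0} C ℚ}

/-- The properties of the Hodge types which are used: classes of cycles of codimension `i` have type
`(i, i)`; types add up in products; pull-backs preserve the types; the push-forward under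
`f : X ⟶ Y` shifts the types by `(dim Y - dim X, dim Y - dim X)`. -/
structure IsHodgeTypes (D : HodgeTypes H) : Prop where
  cl_mem : ∀ {X : 𝒱.Obj} {i : ℤ} {z : C.A X}, C.Deg i z → D X i i (ofRat H (H.cl z))
  mul_mem : ∀ {X : 𝒱.Obj} {p q r s : ℤ} {a b : HC H X}, D X p q a → D X r s b →
    D X (p + r) (q + s) (mulC H a b)
  pull_mem : ∀ {X Y : 𝒱.Obj} (f : X ⟶ Y) {p q : ℤ} {b : HC H Y}, D Y p q b →
    D X p q (pullC H f b)
  push_mem : ∀ {X Y : 𝒱.Obj} (f : X ⟶ Y) {p q : ℤ} {a : HC H X}, D X p q a →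
    D Y (p + (Y.dim - X.dim)) (q + (Y.dim - X.dim)) (pushC H f a)

/-- The Hodge classes in `H^(2 i)(X, ℚ)`: the space of the rational classes of type `(i, i)`. -/
def HodgeTypes.hodge (D : HodgeTypes H) (X : 𝒱.Obj) (i : ℤ) : Submodule ℚ (H.A X) :=
  Submodule.span ℚ {a | H.Deg (2 * i) a ∧ D X i i (ofRat H a)}

/-- The Hodge classes in `K_0^top(X)_ℚ`: the sums of Hodge classes of all degrees. -/
def HodgeTypes.hodgeAll (D : HodgeTypes H) (X : 𝒱.Obj) : Submodule ℚ (H.A X) :=
  ⨆ i : ℤ, D.hodge X i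

/-- The noncommutative Hodge conjecture for the direct summand `(X, e)` (for example an admissible
subcategory of `D^perf(X)` with the projection kernel `e`): every Hodge class of `K_0^top(X)_ℚ`
fixed by `e` is the class of an element of `K_0(X, e)_ℚ = e K_0(X)_ℚ`. -/
def NCHodge (D : HodgeTypes H) {X : 𝒱.Obj} (e : C.A (X.prod X)) : Prop :=
  ∀ a ∈ D.hodgeAll X, H.act (H.cl e) a = a → ∃ z : C.A X, H.cl (C.act e z) = a

/-- The Hodge conjecture for the motive `(X, p)`, in all degrees: every Hodge class in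
`H^(2 i)(X, ℚ)` fixed by `p` is the class of an element of `p CH^i(X)_ℚ`. -/
def MotHodge (D : HodgeTypes H) {X : 𝒱.Obj} (p : C.A (X.prod X)) : Prop :=
  ∀ (i : ℤ), ∀ a ∈ D.hodge X i, H.act (H.cl p) a = a →
    ∃ z : C.A X, C.Deg i z ∧ H.cl (C.act p z) = a

/-- The noncommutative motives `(X, e)` and `(X, p)` are isomorphic modulo homological equivalence:
there are correspondences `u` and `v` (of all degrees) such that `u ∘ v` is homologically
equivalent to `e`, and `v ∘ u` to `p`. -/
def HomIso (H : WeilTheoryData.{u, v, 0} C ℚ) {X : 𝒱.Obj} (e p : C.A (X.prod X)) : Prop :=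
  ∃ u v : C.A (X.prod X), HomEq H (C.comp v u) e ∧ HomEq H (C.comp u v) p

end Pool.Agent.Y121.FD
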