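import Pool.Agent.Y121.FD.Alg
import Pool.Agent.Y121.FD.HodgeDefs
import Pool.Agent.Y121.NK.Hom

/-!
# The noncommutative Hodge conjecture for direct summands
-/

open CategoryTheory AlgebraicGeometry TensorProduct

universe u v

namespace Pool.Agent.Y121.FD

open Pool.Agent.H914 Pool.Agent.H914.VarClass Pool.Agent.H914.VarClass.Obj Pool.Agent.W492.BB
  Pool.Agent.W550.Corr Pool.Agent.TH133 Pool.Agent.Y121.NK

set_option linter.unusedSectionVars false

variable {k : Type u} [Field k] {𝒱 : VarClass k} {C : TheoryData.{u, v, 0} 𝒱 ℚ}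
  [hC : IsChowProj C] {H : WeilTheoryData.{u, v, 0} C ℚ} [hH : IsWeilProj H] {X : 𝒱.Obj}

include hC hH

variable (H) in
/-- The quotient by the homologically trivial correspondences is finite-dimensional. -/
lemma finite_quot (X : 𝒱.Obj) [FiniteDimensional ℚ (H.A (X.prod X))] :
    Module.Finite ℚ (Cor C X ⧸ homI H X) := by
  let f : (Cor C X ⧸ homI H X) →+ H.A (X.prod X) :=
    QuotientAddGroup.lift (homI H X).toAddSubgroup
      ((H.cl : C.A (X.prod X) →+* H.A (X.prod X)).toAddMonoidHom.comp
        (cA C X).toAddMonoidHom) (by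
      intro a ha
      rw [AddMonoidHom.mem_ker]
      exact (mem_homI H).1 ha)
  have hf : Function.Injective f := by
    rw [injective_iff_map_eq_zero]
    intro a ha
    obtain ⟨x, rfl⟩ := Ideal.Quotient.mk_surjective a
    rw [Ideal.Quotient.eq_zero_iff_mem]
    exact (mem_homI H).2 ha
  exact Module.Finite.of_injective (AddMonoidHom.toRatLinearMap f) hf

variable (H) in
/-- Every idempotent modulo homological equivalence is isomorphic to a homogeneous one. -/
theorem exists_model_fd (X : 𝒱.Obj) [FiniteDimensional ℚ (H.A (X.prod X))] {e : Cor C X}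
    (he : e * e - e ∈ homI H X) :
    ∃ p u v : Cor C X, (grading C X).pr 0 p = p ∧ p * p - p ∈ homI H X ∧
      u * v - e ∈ homI H X ∧ v * u - p ∈ homI H X := by
  have := finite_quot (C := C) H X
  exact exists_homogeneous_fdq (grading C X) (homI H X) (fun _ hx j => homI_pr H hx j) he

/-! ### Hodge classes and correspondences -/

variable {D : HodgeTypes H} (hD : IsHodgeTypes D)

include hD

omit hC hH hD in
lemma hodge_deg {i : ℤ} {a : H.A X} (ha : a ∈ D.hodge X i) : a ∈ H.gr X (2 * i) := by
  have h1 : D.hodge X i ≤ H.gr X (2 * i) := Submodule.span_le.2 fun b hb => hb.1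
  exact h1 ha

lemma act_hodge {j : ℤ} {x : Cor C X} (hx : (grading C X).pr j x = x) {i : ℤ} {a : H.A X}
    (ha : a ∈ D.hodge X i) : actH C X H x a ∈ D.hodge X (i + j) := by
  have key : D.hodge X i ≤ (D.hodge X (i + j)).comap (actH C X H x) := by
    refine Submodule.span_le.2 ?_
    rintro a ⟨ha1, ha2⟩
    refine Submodule.subset_span ⟨?_, ?_⟩
    · have h1 := actH_shift H hx ha1
      have h2 : 2 * i + 2 * j = 2 * (i + j) := by ring
      rw [h2] at h1
      exact h1
    · have hx' := hx
      rw [grading_pr, prC_iff] at hx'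
      have h1 : D (X.prod X) (X.dim + j) (X.dim + j) (ofRat H (H.cl (cA C X x))) :=
        hD.cl_mem hx'
      have h2 : D (X.prod X) i i (ofRat H (H.pull (fst X X) a)) := hD.pull_mem (fst X X) ha2
      have h3 := hD.mul_mem h1 h2
      have h3' : mulC H (ofRat H (H.cl (cA C X x))) (ofRat H (H.pull (fst X X) a)) =
          ofRat H (H.cl (cA C X x) * H.pull (fst X X) a) := by
        have h5 := Algebra.TensorProduct.tmul_mul_tmul (R := ℚ) (1 : ℂ) (1 : ℂ)
          (H.cl (cA C X x)) (H.pull (fst X X) a)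
        rw [one_mul] at h5
        exact h5
      rw [h3'] at h3
      have h4 : D X _ _ (ofRat H (H.push (snd X X) (H.cl (cA C X x) * H.pull (fst X X) a))) :=
        hD.push_mem (snd X X) h3
      have e1 : (X.dim : ℤ) + j + i + ((X.dim : ℤ) - ((X.prod X).dim : ℤ)) = i + j := by
        rw [dim_prod]; push_cast; ring
      rw [e1] at h4
      exact h4
  exact key ha

lemma act_hodgeAll (x : Cor C X) {a : H.A X} (ha : a ∈ D.hodgeAll X) :
    actH C X H x a ∈ D.hodgeAll X := by
  have h1 : D.hodgeAll X ≤ (D.hodgeAll X).comap (actH C X H x) := by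
    refine iSup_le fun i b hb => ?_
    rw [Submodule.mem_comap, ← (grading C X).sum_pr x, map_sum, LinearMap.sum_apply]
    refine Submodule.sum_mem _ fun j _ => ?_
    exact (le_iSup (fun i : ℤ => D.hodge X i) (i + j))
      (act_hodge hD ((grading C X).pr_self j x) hb)
  exact h1 ha

omit hD

lemma cmpH_hodgeAll {a : H.A X} (ha : a ∈ D.hodgeAll X) (i : ℤ) :
    cmpH H X (2 * i) a ∈ D.hodge X i := by
  have h1 : D.hodgeAll X ≤ (D.hodge X i).comap (cmpH H X (2 * i)) := by
    refine iSup_le fun j b hb => ?_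
    rw [Submodule.mem_comap]
    by_cases hij : i = j
    · subst hij
      rw [cmpH_self H (hodge_deg hb)]
      exact hb
    · rw [cmpH_ne H (hodge_deg hb) (by omega)]
      exact Submodule.zero_mem _
  exact h1 ha

lemma sum_cmpH {a : H.A X} (ha : a ∈ D.hodgeAll X) :
    ∑ i ∈ Finset.Icc (0 : ℤ) X.dim, cmpH H X (2 * i) a = a := by
  have h1 : D.hodgeAll X ≤ LinearMap.eqLocus
      (∑ i ∈ Finset.Icc (0 : ℤ) X.dim, cmpH H X (2 * i)) LinearMap.id := by
    refine iSup_le fun j b hb => ?_
    rw [LinearMap.mem_eqLocus, LinearMap.sum_apply, LinearMap.id_apply]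
    by_cases hb0 : b = 0
    · rw [hb0]
      exact Finset.sum_eq_zero fun i _ => map_zero _
    have h2 := nonneg_of_mem H (hodge_deg hb) hb0
    have h3 : j ≤ X.dim := by
      by_contra h4
      have h6 : b ∈ H.gr X (2 * j) := hodge_deg hb
      rw [gr_top H (by omega : 2 * (X.dim : ℤ) < 2 * j)] at h6
      exact hb0 ((Submodule.mem_bot _).1 h6)
    rw [Finset.sum_eq_single_of_mem j (Finset.mem_Icc.2 ⟨by omega, h3⟩)]
    · exact cmpH_self H (hodge_deg hb)
    · intro i _ hi
      exact cmpH_ne H (hodge_deg hb) (by omega)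
  have h2 := h1 ha
  rw [LinearMap.mem_eqLocus, LinearMap.sum_apply, LinearMap.id_apply] at h2
  exact h2

/-- The components of the class of a cycle. -/
lemma cmpH_cl (z : C.A X) (i : ℤ) : cmpH H X (2 * i) (H.cl z) = H.cl (cmp C X i z) := by
  conv_lhs => rw [← sum_cmp z]
  rw [map_sum, map_sum]
  have h1 : ∀ j, j ≠ i → cmpH H X (2 * i) (H.cl (cmp C X j z)) = 0 := by
    intro j hj
    exact cmpH_ne H (hH.isClassMap.cl_mem (cmp_mem j z)) (by omega)
  by_cases hi : i ∈ Finset.Icc (0 : ℤ) X.dim
  · rw [Finset.sum_eq_single_of_mem i hi (fun j _ hj => h1 j hj)]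
    exact cmpH_self H (hH.isClassMap.cl_mem (cmp_mem i z))
  · rw [Finset.sum_eq_zero fun j hj => h1 j (fun h => hi (h ▸ hj))]
    have h2 : cmp C X i z = 0 := by
      have h3 := cmp_mem (C := C) i z
      rw [Finset.mem_Icc] at hi
      by_cases h0 : 0 ≤ i
      · exact hC.gr_top X i _ h3 (by omega)
      · rw [C.gr_neg X i (by omega)] at h3
        exact (Submodule.mem_bot _).1 h3
    rw [h2, map_zero]

lemma cl_act (x : Cor C X) (z : C.A X) :
    H.cl (C.act (cA C X x) z) = actH C X H x (H.cl z) := by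
  rw [TheoryData.act_apply, H.cl_push, map_mul, H.cl_pull]
  rfl

lemma actH_congr {x y : Cor C X} (h : x - y ∈ homI H X) (a : H.A X) :
    actH C X H x a = actH C X H y a := by
  rw [(actH_eq_iff H).2 h]

include hD

/-- The transfer of the Hodge conjecture. -/
theorem hodge_iff {e p u v : Cor C X} (hp : (grading C X).pr 0 p = p)
    (he : e * e - e ∈ homI H X)
    (huv : u * v - e ∈ homI H X) (hvu : v * u - p ∈ homI H X) :
    NCHodge D (cA C X e) ↔ MotHodge D (cA C X p) := by
  have hUV : ∀ a, actH C X H u (actH C X H v a) = actH C X H e a := by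
    intro a
    rw [← actH_congr huv a, map_mul]
    rfl
  have hVU : ∀ a, actH C X H v (actH C X H u a) = actH C X H p a := by
    intro a
    rw [← actH_congr hvu a, map_mul]
    rfl
  have hEE : ∀ a, actH C X H e (actH C X H e a) = actH C X H e a := by
    intro a
    have h := actH_congr he a
    rw [map_mul] at h
    exact h
  constructor
  · intro hE i a ha hpa
    have ha' : a ∈ D.hodgeAll X := (le_iSup (fun i : ℤ => D.hodge X i) i) ha
    have hpa' : actH C X H p a = a := hpa
    obtain ⟨z, hz⟩ := hE (actH C X H u a) (act_hodgeAll hD u ha') (by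
      change actH C X H e (actH C X H u a) = actH C X H u a
      rw [← hUV, hVU, hpa'])
    rw [cl_act] at hz
    -- the class of a cycle
    have h1 : a = H.cl (C.act (cA C X v) (C.act (cA C X e) z)) := by
      rw [cl_act, cl_act, hz, hVU, hpa']
    refine ⟨cmp C X i (C.act (cA C X v) (C.act (cA C X e) z)), cmp_mem _ _, ?_⟩
    rw [cl_act, ← cmpH_cl, ← h1, cmpH_self H (hodge_deg ha), hpa']
  · intro hP a ha hea
    have hea' : actH C X H e a = a := hea
    set b := actH C X H v a with hb
    have hbA : b ∈ D.hodgeAll X := act_hodgeAll hD v ha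
    have hpb : actH C X H p b = b := by
      rw [hb, ← hVU, hUV, hea']
    have hpi : ∀ i : ℤ, actH C X H p (cmpH H X (2 * i) b) = cmpH H X (2 * i) b := by
      intro i
      conv_rhs => rw [← hpb, ← sum_cmpH hbA, map_sum, map_sum]
      have h1 : ∀ j : ℤ, actH C X H p (cmpH H X (2 * j) b) ∈ H.gr X (2 * j) := by
        intro j
        have := actH_shift H hp (hodge_deg (cmpH_hodgeAll hbA j))
        rwa [mul_zero, add_zero] at this
      by_cases hi : i ∈ Finset.Icc (0 : ℤ) X.dim
      · rw [Finset.sum_eq_single_of_mem i hi]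
        · rw [cmpH_self H (h1 i)]
        · intro j _ hj
          exact cmpH_ne H (h1 j) (by omega)
      · rw [Finset.sum_eq_zero fun j hj => cmpH_ne H (h1 j) (fun h => hi (by
          have : j = i := by omega
          exact this ▸ hj))]
        have h2 : cmpH H X (2 * i) b = 0 := by
          have h3 : cmpH H X (2 * i) b ∈ H.gr X (2 * i) := hodge_deg (cmpH_hodgeAll hbA i)
          rw [Finset.mem_Icc] at hi
          by_contra h4
          have h5 := nonneg_of_mem H h3 h4
          rw [gr_top H (by omega : 2 * (X.dim : ℤ) < 2 * i)] at h3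
          exact h4 ((Submodule.mem_bot _).1 h3)
        rw [h2, map_zero]
    have h1 : ∀ i : ℤ, ∃ z : C.A X, H.cl z = cmpH H X (2 * i) b := by
      intro i
      obtain ⟨z, -, hz⟩ := hP i _ (cmpH_hodgeAll hbA i) (hpi i)
      exact ⟨_, hz⟩
    choose z hz using h1
    have h2 : H.cl (∑ i ∈ Finset.Icc (0 : ℤ) X.dim, z i) = b := by
      rw [map_sum, Finset.sum_congr rfl fun i _ => hz i, sum_cmpH hbA]
    refine ⟨C.act (cA C X u) (∑ i ∈ Finset.Icc (0 : ℤ) X.dim, z i), ?_⟩
    rw [cl_act, cl_act, h2, hb, hUV, hEE, hea']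

/-- The main theorem. -/
theorem hodge_main [FiniteDimensional ℚ (H.A (X.prod X))] {e : C.A (X.prod X)}
    (he : HomEq H (C.comp e e) e) :
    ∃ p : C.A (X.prod X), C.Deg X.dim p ∧ HomEq H (C.comp p p) p ∧ HomIso H e p ∧
      (NCHodge D e ↔ MotHodge D p) := by
  obtain ⟨y, rfl⟩ : ∃ y : Cor C X, cA C X y = e := ⟨e, rfl⟩
  have he' : y * y - y ∈ homI H X := (homEq_iff H).1 he
  obtain ⟨p, u, v, h1, h2, h3, h4⟩ := exists_model_fd H X he'
  have h5 := h1
  rw [grading_pr, prC_iff, add_zero] at h5
  exact ⟨cA C X p, h5, (homEq_iff H).2 h2, ⟨cA C X u, cA C X v, (homEq_iff H).2 h3,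
    (homEq_iff H).2 h4⟩, hodge_iff hD h1 he' h3 h4⟩

end Pool.Agent.Y121.FD
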