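import Pool.Agent.Y121.NK.HomDefs
import Pool.Agent.Y121.NK.Graded

/-!
# The noncommutative variational Hodge conjecture for direct summands: definitions
-/

open CategoryTheory AlgebraicGeometry

universe u v

namespace Pool.Agent.Y121.FD

open Pool.Agent.H914 Pool.Agent.H914.VarClass Pool.Agent.H914.VarClass.Obj Pool.Agent.W492.BB
  Pool.Agent.TH133 Pool.Agent.Y121.NK

variable {k : Type u} [Field k] {𝒱 : VarClass k} {C : TheoryData.{u, v, 0} 𝒱 ℚ}

/-- The cohomology class of a cycle. -/
noncomputable def clz (H : WeilTheoryData.{u, v, 0} C ℚ) {X : 𝒱.Obj} (z : C.A X) : H.A X := H.cl z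

/-- The data attached to a smooth projective morphism `f : X ⟶ S`, `S` connected, which are used:

* the set `S` of the complex points of the base and the fibres `X s`;
* the graded ring `R` of the relative correspondences, `R = K_0(X ×_S X)_ℚ` with the composition and
  the grading which the Adams operations define (the degree of a class of relative codimension `c` is
  `c` minus the relative dimension), and the specialisations `R ⟶ CH^*(X s × X s)_ℚ`;
* the global sections of the local system of the rational cohomologies of the fibres. -/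
structure Family (H : WeilTheoryData.{u, v, 0} C ℚ) where
  /-- the points of the base -/
  S : Type
  /-- the fibres -/
  X : S → 𝒱.Obj
  /-- the relative correspondences -/
  R : Type v
  [ring : Ring R]
  [algebra : Algebra ℚ R]
  /-- the grading of the ring of relative correspondences -/
  G : BGr R
  /-- the specialisations -/
  spec : ∀ s, R → C.A ((X s).prod (X s))
  /-- the global sections -/
  IsSec : (∀ s, H.A (X s)) → Prop

attribute [instance] Family.ring Family.algebra

namespace Family

variable {H : WeilTheoryData.{u, v, 0} C ℚ} (𝒳 : Family H)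

/-- The action of the relative correspondence `x` on the cohomology of the fibre over `s`. -/
noncomputable def actAt (x : 𝒳.R) (s : 𝒳.S) (a : H.A (𝒳.X s)) : H.A (𝒳.X s) :=
  H.act (clz H (𝒳.spec s x)) a

/-- The action of the relative correspondence `x` on the algebraic cycles of the fibre over `s`. -/
noncomputable def actCyc (x : 𝒳.R) (s : 𝒳.S) (z : C.A (𝒳.X s)) : C.A (𝒳.X s) :=
  C.act (𝒳.spec s x) z

/-- The relative correspondence `x` is homologically trivial on the fibre over `s`. -/
def HomTrivAt (x : 𝒳.R) (s : 𝒳.S) : Prop := clz H (𝒳.spec s x) = 0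

/-- The relative correspondence `x` is homologically trivial on all fibres. -/
def HomTriv (x : 𝒳.R) : Prop := ∀ s, 𝒳.HomTrivAt x s

/-- The section `φ` is of degree `i`. -/
def IsDeg (i : ℤ) (φ : ∀ s, H.A (𝒳.X s)) : Prop := ∀ s, H.Deg i (φ s)

/-- The relative correspondence `x` fixes the section `φ`. -/
def Fixes (x : 𝒳.R) (φ : ∀ s, H.A (𝒳.X s)) : Prop := ∀ s, 𝒳.actAt x s (φ s) = φ s

/-- The specialisations are additive. -/
def SpecAdd : Prop := ∀ s x y, 𝒳.spec s (x + y) = 𝒳.spec s x + 𝒳.spec s y

/-- The specialisations are compatible with the compositions. -/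
def SpecMul : Prop := ∀ s x y, 𝒳.spec s (x * y) = C.comp (𝒳.spec s y) (𝒳.spec s x)

/-- The specialisation of the unit is the graph of the identity. -/
def SpecOne : Prop := ∀ s, 𝒳.spec s 1 = C.graph (𝟙 (𝒳.X s))

/-- The specialisations of relative correspondences of degree `j` are of codimension
`dim X s + j`. -/
def SpecDeg : Prop := ∀ s j x, 𝒳.G.pr j x = x → C.Deg ((𝒳.X s).dim + j) (𝒳.spec s x)

/-- A relative correspondence which is homologically trivial on one fibre is so on all fibres. -/
def Flat : Prop := ∀ x s, 𝒳.HomTrivAt x s → 𝒳.HomTriv x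

/-- The images of global sections under relative correspondences are global sections. -/
def ActMem : Prop := ∀ x φ, 𝒳.IsSec φ → 𝒳.IsSec fun s => 𝒳.actAt x s (φ s)

/-- At the point `s`, `φ` is the sum of the finitely many nonzero `ψ i`. -/
def SumAt (ψ : ℤ → ∀ s, H.A (𝒳.X s)) (φ : ∀ s, H.A (𝒳.X s)) (s : 𝒳.S) : Prop :=
  ∃ T : Finset ℤ, (∀ i ∉ T, ψ i s = 0) ∧ ∑ i ∈ T, ψ i s = φ s

/-- The components of global sections are global sections. -/
def HasComponents : Prop :=
  ∀ φ, 𝒳.IsSec φ → ∃ ψ : ℤ → ∀ s, H.A (𝒳.X s), (∀ i, 𝒳.IsSec (ψ i) ∧ 𝒳.IsDeg i (ψ i)) ∧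
    ∀ s, 𝒳.SumAt ψ φ s

/-- A global section which vanishes at one point is zero. -/
def Rigid : Prop := ∀ φ, 𝒳.IsSec φ → (∃ s, φ s = 0) → ∀ s, φ s = 0

/-- The properties of these data which are used: the specialisations are additive, compatible with
compositions, units and gradings; a relative correspondence which is homologically trivial on one
fibre is so on all fibres; the images of global sections under relative correspondences are global
sections, and the components of a global section are global sections; a global section which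
vanishes at one point is zero. -/
structure IsFamily : Prop where
  nonempty : Nonempty 𝒳.S
  spec_add : 𝒳.SpecAdd
  spec_mul : 𝒳.SpecMul
  spec_one : 𝒳.SpecOne
  spec_deg : 𝒳.SpecDeg
  flat : 𝒳.Flat
  act_mem : 𝒳.ActMem
  exists_components : 𝒳.HasComponents
  eq_zero : 𝒳.Rigid

/-- The section `φ` is at the point `s` the class of an element of `e_s CH^*(X_s)_ℚ`. -/
def AlgAt (e : 𝒳.R) (φ : ∀ s, H.A (𝒳.X s)) (s : 𝒳.S) : Prop :=
  ∃ z, clz H (𝒳.actCyc e s z) = φ s

/-- The section `φ` is at the point `s` the class of an element of `p_s CH^i(X_s)_ℚ`. -/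
def AlgDegAt (i : ℤ) (p : 𝒳.R) (φ : ∀ s, H.A (𝒳.X s)) (s : 𝒳.S) : Prop :=
  ∃ z, C.Deg i z ∧ clz H (𝒳.actCyc p s z) = φ s

/-- The noncommutative variational Hodge conjecture for the `S`-linear direct summand `(X/S, e)`, for
example an `S`-linear admissible subcategory `𝒞` of `D_perf(X)` with the projection kernel `e`: if a
global section `φ` of the local system of the `K_0^top(𝒞_s)_ℚ = e_s H(X_s)` is at one point the class
of an element of `K_0(𝒞_s)_ℚ = e_s K_0(X_s)_ℚ`, then so it is at every point. -/
def NCVarHodge (e : 𝒳.R) : Prop :=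
  ∀ φ, 𝒳.IsSec φ → 𝒳.Fixes e φ → (∃ s, 𝒳.AlgAt e φ s) → ∀ s, 𝒳.AlgAt e φ s

/-- The variational Hodge conjecture for the relative Chow motive `(X/S, p)`: if a global section `φ`
of degree `2 i`, fixed by `p`, is at one point the class of an element of `p_s CH^i(X_s)_ℚ`, then so
it is at every point. -/
def VarHodge (p : 𝒳.R) : Prop :=
  ∀ (i : ℤ) φ, 𝒳.IsSec φ → 𝒳.IsDeg (2 * i) φ → 𝒳.Fixes p φ → (∃ s, 𝒳.AlgDegAt i p φ s) →
    ∀ s, 𝒳.AlgDegAt i p φ s

end Family

end Pool.Agent.Y121.FD
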