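import Pool.Agent.Y121.FD.Hodge
import Pool.Agent.Y121.FD.VarDefs

/-!
# The noncommutative variational Hodge conjecture for direct summands
-/

open CategoryTheory AlgebraicGeometry

universe u v

namespace Pool.Agent.Y121.FD

open Pool.Agent.H914 Pool.Agent.H914.VarClass Pool.Agent.H914.VarClass.Obj Pool.Agent.W492.BB
  Pool.Agent.W550.Corr Pool.Agent.TH133 Pool.Agent.Y121.NK

set_option linter.unusedSectionVars false

variable {k : Type u} [Field k] {𝒱 : VarClass k} {C : TheoryData.{u, v, 0} 𝒱 ℚ}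
  [hC : IsChowProj C] {H : WeilTheoryData.{u, v, 0} C ℚ} [hH : IsWeilProj H] (𝒳 : Family H)

namespace Family

include hC hH

lemma actAt_eq' (x : 𝒳.R) (s : 𝒳.S) (a : H.A (𝒳.X s)) :
    𝒳.actAt x s a = actH C (𝒳.X s) H (show Cor C (𝒳.X s) from 𝒳.spec s x) a := rfl

lemma cl_actCyc (x : 𝒳.R) (s : 𝒳.S) (z : C.A (𝒳.X s)) :
    H.cl (𝒳.actCyc x s z) = 𝒳.actAt x s (H.cl z) := cl_act _ z

variable {𝒳} (h𝒳 : 𝒳.IsFamily)

/-- The specialisation homomorphisms. -/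
noncomputable def sp (s : 𝒳.S) : 𝒳.R →+* Cor C (𝒳.X s) :=
  RingHom.mk' (⟨⟨fun x => (show Cor C (𝒳.X s) from 𝒳.spec s x), h𝒳.spec_one s⟩,
    fun x y => h𝒳.spec_mul s x y⟩ : 𝒳.R →* Cor C (𝒳.X s)) (fun x y => h𝒳.spec_add s x y)

lemma cA_sp (s : 𝒳.S) (x : 𝒳.R) : cA C (𝒳.X s) (sp h𝒳 s x) = 𝒳.spec s x := rfl

lemma sp_pr (s : 𝒳.S) (j : ℤ) (x : 𝒳.R) :
    sp h𝒳 s (𝒳.G.pr j x) = (grading C (𝒳.X s)).pr j (sp h𝒳 s x) := by
  have h : ∀ i y, 𝒳.G.pr i y = y → (grading C (𝒳.X s)).pr i (sp h𝒳 s y) = sp h𝒳 s y := by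
    intro i y hy
    exact prC_iff.2 (h𝒳.spec_deg s i y hy)
  have h1 : ∀ i, (grading C (𝒳.X s)).pr i (sp h𝒳 s (𝒳.G.pr i x)) = sp h𝒳 s (𝒳.G.pr i x) :=
    fun i => h i _ (𝒳.G.pr_self i x)
  conv_rhs => rw [← 𝒳.G.sum_pr x]
  rw [map_sum, map_sum]
  by_cases hj : j ∈ Finset.Icc (-(𝒳.G.d : ℤ)) 𝒳.G.d
  · rw [Finset.sum_eq_single_of_mem j hj, h1]
    intro i _ hij
    rw [← h1 i, (grading C (𝒳.X s)).pr_ne j i _ hij.symm]
  · rw [𝒳.G.pr_out hj, map_zero]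
    refine (Finset.sum_eq_zero fun i hi => ?_).symm
    rw [← h1 i, (grading C (𝒳.X s)).pr_ne j i _ (fun h => hj (h ▸ hi))]

lemma actAt_eq (x : 𝒳.R) (s : 𝒳.S) (a : H.A (𝒳.X s)) :
    𝒳.actAt x s a = actH C (𝒳.X s) H (sp h𝒳 s x) a := rfl

include h𝒳

lemma actAt_mul (x y : 𝒳.R) (s : 𝒳.S) (a : H.A (𝒳.X s)) :
    𝒳.actAt (x * y) s a = 𝒳.actAt x s (𝒳.actAt y s a) := by
  rw [actAt_eq h𝒳, map_mul, map_mul]
  rfl

lemma homTrivAt_iff {x : 𝒳.R} {s : 𝒳.S} :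
    𝒳.HomTrivAt x s ↔ sp h𝒳 s x ∈ homI H (𝒳.X s) :=
  ⟨fun h => (mem_homI H).2 h, fun h => (mem_homI H).1 h⟩

/-- The ideal of the homologically trivial relative correspondences. -/
def homT : Ideal 𝒳.R where
  carrier := {x | 𝒳.HomTriv x}
  zero_mem' := fun s => by
    rw [homTrivAt_iff h𝒳, map_zero]
    exact zero_mem _
  add_mem' {a b} ha hb := fun s => by
    rw [homTrivAt_iff h𝒳, map_add]
    exact add_mem ((homTrivAt_iff h𝒳).1 (ha s)) ((homTrivAt_iff h𝒳).1 (hb s))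
  smul_mem' c x hx := fun s => by
    rw [smul_eq_mul, homTrivAt_iff h𝒳, map_mul]
    exact Ideal.mul_mem_left _ _ ((homTrivAt_iff h𝒳).1 (hx s))

instance : (homT h𝒳).IsTwoSided where
  mul_mem_of_left b ha := fun s => by
    rw [homTrivAt_iff h𝒳, map_mul]
    exact Ideal.mul_mem_right _ _ ((homTrivAt_iff h𝒳).1 (ha s))

lemma mem_homT {x : 𝒳.R} : x ∈ homT h𝒳 ↔ ∀ s, sp h𝒳 s x ∈ homI H (𝒳.X s) :=
  ⟨fun h s => (mem_homI H).2 (h s), fun h s => (mem_homI H).1 (h s)⟩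

lemma actAt_congr {x y : 𝒳.R} (h : x - y ∈ homT h𝒳) (s : 𝒳.S) (a : H.A (𝒳.X s)) :
    𝒳.actAt x s a = 𝒳.actAt y s a := by
  rw [actAt_eq h𝒳, actAt_eq h𝒳]
  refine actH_congr ?_ a
  rw [← map_sub]
  exact (mem_homT h𝒳).1 h s

lemma homT_pr {x : 𝒳.R} (hx : x ∈ homT h𝒳) (j : ℤ) : 𝒳.G.pr j x ∈ homT h𝒳 := by
  rw [mem_homT] at hx ⊢
  intro s
  rw [sp_pr]
  exact homI_pr H (hx s) j

lemma finite_homT [∀ s, FiniteDimensional ℚ (H.A ((𝒳.X s).prod (𝒳.X s)))] :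
    Module.Finite ℚ (𝒳.R ⧸ homT h𝒳) := by
  obtain ⟨s⟩ := h𝒳.nonempty
  have h1 := finite_quot (C := C) H (𝒳.X s)
  let f : (𝒳.R ⧸ homT h𝒳) →+ (Cor C (𝒳.X s) ⧸ homI H (𝒳.X s)) :=
    QuotientAddGroup.lift (homT h𝒳).toAddSubgroup
      ((Ideal.Quotient.mk (homI H (𝒳.X s))).toAddMonoidHom.comp
        (sp h𝒳 s).toAddMonoidHom) (by
      intro a ha
      rw [AddMonoidHom.mem_ker]
      exact Ideal.Quotient.eq_zero_iff_mem.2 ((mem_homT h𝒳).1 ha s))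
  have hf : Function.Injective f := by
    rw [injective_iff_map_eq_zero]
    intro a ha
    obtain ⟨x, rfl⟩ := Ideal.Quotient.mk_surjective a
    rw [Ideal.Quotient.eq_zero_iff_mem]
    have h2 : sp h𝒳 s x ∈ homI H (𝒳.X s) := Ideal.Quotient.eq_zero_iff_mem.1 ha
    exact h𝒳.flat x s ((mem_homI H).1 h2)
  exact Module.Finite.of_injective (AddMonoidHom.toRatLinearMap f) hf

/-- The transfer of the variational Hodge conjecture. -/
theorem var_iff {e p u v : 𝒳.R} (hp : 𝒳.G.pr 0 p = p) (he : e * e - e ∈ homT h𝒳)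
    (huv : u * v - e ∈ homT h𝒳) (hvu : v * u - p ∈ homT h𝒳) :
    𝒳.NCVarHodge e ↔ 𝒳.VarHodge p := by
  have hUV : ∀ s a, 𝒳.actAt u s (𝒳.actAt v s a) = 𝒳.actAt e s a := by
    intro s a
    rw [← actAt_congr h𝒳 huv, actAt_mul h𝒳]
  have hVU : ∀ s a, 𝒳.actAt v s (𝒳.actAt u s a) = 𝒳.actAt p s a := by
    intro s a
    rw [← actAt_congr h𝒳 hvu, actAt_mul h𝒳]
  have hEE : ∀ s a, 𝒳.actAt e s (𝒳.actAt e s a) = 𝒳.actAt e s a := by
    intro s a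
    rw [← actAt_mul h𝒳]
    exact actAt_congr h𝒳 he s a
  have hp0 : ∀ s, (grading C (𝒳.X s)).pr 0 (sp h𝒳 s p) = sp h𝒳 s p := by
    intro s
    rw [← sp_pr, hp]
  constructor
  · intro hE i φ hφ hdeg hpφ ⟨s₀, z₀, _, hz₀⟩ s
    -- the section `u φ`
    have h1 : 𝒳.Fixes e (fun s => 𝒳.actAt u s (φ s)) := by
      intro s
      change 𝒳.actAt e s (𝒳.actAt u s (φ s)) = 𝒳.actAt u s (φ s)
      rw [← hUV, hVU, hpφ s]
    have hz₁ : H.cl (𝒳.actCyc p s₀ z₀) = φ s₀ := hz₀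
    have h2 : ∃ s, 𝒳.AlgAt e (fun s => 𝒳.actAt u s (φ s)) s := by
      refine ⟨s₀, 𝒳.actCyc u s₀ (𝒳.actCyc p s₀ z₀), ?_⟩
      change H.cl _ = 𝒳.actAt u s₀ (φ s₀)
      rw [cl_actCyc, cl_actCyc, hz₁]
      exact h1 s₀
    obtain ⟨z, hz'⟩ := hE _ (h𝒳.act_mem u φ hφ) h1 h2 s
    have hz : H.cl (𝒳.actCyc e s z) = 𝒳.actAt u s (φ s) := hz'
    have h3 : φ s = H.cl (𝒳.actCyc v s (𝒳.actCyc e s z)) := by
      rw [cl_actCyc, hz, hVU, hpφ s]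
    refine ⟨cmp C (𝒳.X s) i (𝒳.actCyc v s (𝒳.actCyc e s z)), cmp_mem _ _, ?_⟩
    change H.cl _ = _
    rw [cl_actCyc, ← cmpH_cl, ← h3, cmpH_self H (hdeg s), hpφ s]
  · intro hP φ hφ heφ ⟨s₀, z₀, hz₁⟩ s
    have hz₀ : H.cl (𝒳.actCyc e s₀ z₀) = φ s₀ := hz₁
    -- the section `v φ` and its components
    have hψ := h𝒳.act_mem v φ hφ
    obtain ⟨ψ, hψ1, hψ2'⟩ := h𝒳.exists_components _ hψ
    have hψ2 : ∀ s, ∃ T : Finset ℤ, (∀ i ∉ T, ψ i s = 0) ∧ ∑ i ∈ T, ψ i s =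
      𝒳.actAt v s (φ s) := hψ2'
    have hcomp : ∀ (t : 𝒳.S) (i : ℤ), cmpH H (𝒳.X t) i (𝒳.actAt v t (φ t)) = ψ i t := by
      intro t i
      obtain ⟨T, hT1, hT2⟩ := hψ2 t
      rw [← hT2, map_sum]
      by_cases hi : i ∈ T
      · rw [Finset.sum_eq_single_of_mem i hi]
        · exact cmpH_self H ((hψ1 i).2 t)
        · intro j _ hj
          exact cmpH_ne H ((hψ1 j).2 t) hj
      · rw [hT1 i hi]
        refine Finset.sum_eq_zero fun j hj => ?_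
        exact cmpH_ne H ((hψ1 j).2 t) (fun h => hi (h ▸ hj))
    have hpv : ∀ t, 𝒳.actAt p t (𝒳.actAt v t (φ t)) = 𝒳.actAt v t (φ t) := by
      intro t
      rw [← hVU, hUV, heφ t]
    -- the value at `s₀`
    have hv0 : 𝒳.actAt v s₀ (φ s₀) = H.cl (𝒳.actCyc v s₀ (𝒳.actCyc e s₀ z₀)) := by
      rw [cl_actCyc, hz₀]
    -- the components are fixed by `p`
    have hpψ : ∀ i, 𝒳.Fixes p (ψ i) := by
      intro i t
      rw [← hcomp, actAt_eq h𝒳]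
      have h1 : ∀ a : H.A (𝒳.X t), cmpH H (𝒳.X t) i (actH C (𝒳.X t) H (sp h𝒳 t p) a) =
          actH C (𝒳.X t) H (sp h𝒳 t p) (cmpH H (𝒳.X t) i a) := by
        intro a
        have h2 : cmpH H (𝒳.X t) i ∘ₗ actH C (𝒳.X t) H (sp h𝒳 t p) =
            actH C (𝒳.X t) H (sp h𝒳 t p) ∘ₗ cmpH H (𝒳.X t) i := by
          apply ext_gr H
          intro j b hb
          rw [LinearMap.comp_apply, LinearMap.comp_apply]
          have h3 := actH_shift H (hp0 t) hb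
          rw [mul_zero, add_zero] at h3
          by_cases hij : j = i
          · subst hij
            rw [cmpH_self H h3, cmpH_self H hb]
          · rw [cmpH_ne H h3 hij, cmpH_ne H hb hij, map_zero]
        exact LinearMap.congr_fun h2 a
      rw [← h1]
      congr 1
      exact hpv t
    -- the components are algebraic
    have halg : ∀ (i : ℤ) (t : 𝒳.S), ∃ z : C.A (𝒳.X t), H.cl z = ψ (2 * i) t := by
      intro i t
      obtain ⟨z, -, hz⟩ := hP i (ψ (2 * i)) (hψ1 (2 * i)).1 (hψ1 (2 * i)).2 (hpψ (2 * i))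
        ⟨s₀, cmp C (𝒳.X s₀) i (𝒳.actCyc v s₀ (𝒳.actCyc e s₀ z₀)), cmp_mem _ _, by
          change H.cl _ = _
          rw [cl_actCyc, ← cmpH_cl, ← hv0, hcomp]
          exact hpψ (2 * i) s₀⟩ t
      exact ⟨_, hz⟩
    -- the odd components vanish
    have hodd : ∀ i : ℤ, Odd i → ∀ s, ψ i s = 0 := by
      intro i hi
      refine h𝒳.eq_zero _ (hψ1 i).1 ⟨s₀, ?_⟩
      rw [← hcomp, hv0, ← sum_cmp (𝒳.actCyc v s₀ (𝒳.actCyc e s₀ z₀)), map_sum, map_sum]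
      refine Finset.sum_eq_zero fun j _ => ?_
      refine cmpH_ne H (hH.isClassMap.cl_mem (cmp_mem j _)) ?_
      rintro rfl
      exact (Int.not_odd_iff_even.2 (even_two_mul j)) hi
    obtain ⟨T, hT1, hT2⟩ := hψ2 s
    have h5 : ∀ i : ℤ, ∃ z : C.A (𝒳.X s), H.cl z = ψ i s := by
      intro i
      rcases Int.even_or_odd i with h | h
      · obtain ⟨j, hj⟩ := h
        have : i = 2 * j := by omega
        rw [this]
        exact halg j s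
      · exact ⟨0, by rw [hodd i h s, map_zero]⟩
    choose z hz using h5
    have h6 : H.cl (∑ i ∈ T, z i) = 𝒳.actAt v s (φ s) := by
      rw [map_sum, Finset.sum_congr rfl fun i _ => hz i, hT2]
    refine ⟨𝒳.actCyc u s (∑ i ∈ T, z i), ?_⟩
    change H.cl _ = _
    rw [cl_actCyc, cl_actCyc, h6, hUV, hEE, heφ s]

/-- The main theorem. -/
theorem var_main [∀ s, FiniteDimensional ℚ (H.A ((𝒳.X s).prod (𝒳.X s)))] {e : 𝒳.R}
    (he : 𝒳.HomTriv (e * e - e)) :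
    ∃ p u v : 𝒳.R, 𝒳.G.pr 0 p = p ∧ 𝒳.HomTriv (p * p - p) ∧ 𝒳.HomTriv (u * v - e) ∧
      𝒳.HomTriv (v * u - p) ∧ (𝒳.NCVarHodge e ↔ 𝒳.VarHodge p) := by
  have := finite_homT h𝒳
  obtain ⟨p, u, v, h1, h2, h3, h4⟩ := exists_homogeneous_fdq 𝒳.G (homT h𝒳)
    (fun _ hx j => homT_pr h𝒳 hx j) (e := e) he
  exact ⟨p, u, v, h1, h2, h3, h4, var_iff h𝒳 h1 he h3 h4⟩

end Family

end Pool.Agent.Y121.FD
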